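import Mathlib

namespace Pool.Agent.H.MP_a53ef7_an
open scoped ENNReal
open MeasureTheory Set Real

noncomputable def G {N : Type} [MetricSpace N] (p t : ℝ) (f : ℝ → N) (Ω : Set ℝ) : ℝ≥0∞ :=
  ∫⁻ z in (Ω ×ˢ Ω) ∩ {z : ℝ × ℝ | t ≤ dist (f z.2) (f z.1)},
    ENNReal.ofReal ((dist (f z.2) (f z.1) - t) ^ p / |z.2 - z.1| ^ 2)

noncomputable def k (z : ℝ × ℝ) : ℝ≥0∞ := ENNReal.ofReal (1 / |z.2 - z.1| ^ 2)

lemma sw (S : Set (ℝ × ℝ)) : ∫⁻ z in Prod.swap ⁻¹' S, k z = ∫⁻ z in S, k z := by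
  rw [Measure.volume_eq_prod, ← (Measure.measurePreserving_swap (μ := volume) (ν := volume)).setLIntegral_comp_preimage_emb
    MeasurableEquiv.prodComm.measurableEmbedding k S]
  simp only [k, Prod.fst_swap, Prod.snd_swap, abs_sub_comm]

def S (L : ℝ) : Set (ℝ × ℝ) := Ioo (-L) 0 ×ˢ Ioo 1 L

lemma S_fin (L : ℝ) : ∫⁻ z in S L, k z ≠ ⊤ := by
  refine ne_top_of_le_ne_top ?_ (setLIntegral_mono (g := fun _ => 1) measurable_const fun z hz => ?_)
  · rw [setLIntegral_one, S, Measure.volume_eq_prod, Measure.prod_prod]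
    exact ENNReal.mul_ne_top measure_Ioo_lt_top.ne measure_Ioo_lt_top.ne
  · refine ENNReal.ofReal_le_one.2 (div_le_one_of_le₀ ?_ (by positivity))
    rw [sq_abs]; nlinarith [hz.1.2, hz.2.1]

lemma S_big (n : ℕ) : ENNReal.ofReal (n / 16) ≤ ∫⁻ z in S (2 ^ n), k z := by
  induction n with
  | zero => simp
  | succ n ih =>
    have h1 : (1 : ℝ) ≤ 2 ^ n := one_le_pow₀ one_le_two
    generalize hq : (2 : ℝ) ^ n = q at *
    have hB : ENNReal.ofReal (1 / 16) ≤ ∫⁻ z in Ioo (-(q * 2)) (-q) ×ˢ Ioo q (q * 2), k z := by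
      refine le_trans ?_ (setLIntegral_mono' (f := fun _ => ENNReal.ofReal (1 / (4 * q) ^ 2))
        (measurableSet_Ioo.prod measurableSet_Ioo) fun z hz => ?_)
      · rw [setLIntegral_const, Measure.volume_eq_prod, Measure.prod_prod, Real.volume_Ioo,
          Real.volume_Ioo, ← ENNReal.ofReal_mul (by linarith), ← ENNReal.ofReal_mul (by positivity)]
        exact ENNReal.ofReal_le_ofReal (le_of_eq (by field_simp; ring))
      · obtain ⟨⟨h2, h3⟩, h4, h5⟩ := hz
        refine ENNReal.ofReal_le_ofReal ?_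
        rw [abs_of_pos (by linarith)]
        have : 0 < z.2 - z.1 := by linarith
        gcongr; linarith
    rw [pow_succ, hq, Nat.cast_succ, add_div, ENNReal.ofReal_add (by positivity) (by positivity)]
    refine (add_le_add ih hB).trans ?_
    rw [← lintegral_union (measurableSet_Ioo.prod measurableSet_Ioo)
      (disjoint_left.2 fun z h2 h3 => by linarith [h2.1.1, h3.1.2])]
    refine lintegral_mono_set ?_
    rintro z (⟨⟨h2, h3⟩, h4, h5⟩ | ⟨⟨h2, h3⟩, h4, h5⟩) <;>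
      exact ⟨⟨by linarith, by linarith⟩, by linarith, by linarith⟩

def T (c : ℝ) : Set (ℝ × ℝ) := {z | z.1 ∈ Icc (0 : ℝ) 1 ∧ c ≤ |z.2 - z.1|}

lemma T_fin {c : ℝ} (hc : 0 < c) : ∫⁻ z in T c, k z ≠ ⊤ := by
  let g : ℝ → ℝ≥0∞ := fun h => ENNReal.ofReal ((1 + 1 / c ^ 2) * (1 + h ^ 2)⁻¹)
  have mg : Measurable g := by fun_prop
  have hg : ∫⁻ h, g h ≠ ⊤ := (integrable_inv_one_add_sq.const_mul _).lintegral_lt_top.ne
  have h1 : ∫⁻ z in T c, k z ≤ ∫⁻ z in Icc (0 : ℝ) 1 ×ˢ univ, g (z.2 - z.1) := by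
    refine le_trans (setLIntegral_mono (by fun_prop) fun z hz => ?_)
      (lintegral_mono_set (show T c ⊆ _ from fun z hz => ⟨hz.1, trivial⟩))
    refine ENNReal.ofReal_le_ofReal ?_
    have h2 := pow_le_pow_left₀ hc.le hz.2 2
    rw [sq_abs] at h2 ⊢
    have h3 : 0 < (z.2 - z.1) ^ 2 := lt_of_lt_of_le (by positivity) h2
    rw [← div_eq_mul_inv, div_le_div_iff₀ h3 (by positivity)]
    have : 1 ≤ 1 / c ^ 2 * (z.2 - z.1) ^ 2 := by
      rw [one_div_mul_eq_div, one_le_div (by positivity)]; exact h2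
    linarith
  refine ne_top_of_le_ne_top ?_ h1
  rw [Measure.volume_eq_prod, ← Measure.prod_restrict, lintegral_prod _ (by fun_prop)]
  simp only [Measure.restrict_univ, lintegral_sub_right_eq_self g]
  simpa using hg

theorem main {N : Type} [MetricSpace N] [MeasurableSpace N] [BorelSpace N] {a : ℝ} (ha : 0 < a)
    (γ : Icc (0 : ℝ) a → N) (hγ : Isometry γ) {p : ℝ} (p0 : 0 ≤ p) (p1 : p < 1) {C : ℝ}
    (hC : 0 < C) : ∃ (Ω : Set ℝ) (f : ℝ → N) (δ ε : ℝ), Convex ℝ Ω ∧ Measurable f ∧ 0 < δ ∧ δ < ε ∧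
      ENNReal.ofReal (C * (δ / ε) ^ (1 - p)) * G p δ f Ω < G p ε f Ω := by
  obtain ⟨η, h0, h1, h2⟩ : ∃ η : ℝ, 0 < η ∧ η < 1 ∧ C * η ^ (1 - p) ≤ 1 / 8 := by
    have : Filter.Tendsto (fun η : ℝ => C * η ^ (1 - p)) (nhds 0) (nhds 0) := by
      have := ((continuousAt_rpow_const 0 (1 - p) (Or.inr (by linarith))).tendsto).const_mul C
      rwa [zero_rpow (by linarith), mul_zero] at this
    obtain ⟨η, h1, h2⟩ := (((this.eventually (ge_mem_nhds (show (0 : ℝ) < 1 / 8 by norm_num))).and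
      (gt_mem_nhds one_pos)).filter_mono (nhdsWithin_le_nhds (s := Ioi 0))).and
      self_mem_nhdsWithin |>.exists
    exact ⟨η, h2, h1.2, h1.1⟩
  let f : ℝ → N := fun x => γ (projIcc 0 a ha.le (a * x))
  have hd : ∀ x y, dist (f y) (f x) = |max 0 (min a (a * y)) - max 0 (min a (a * x))| :=
    fun x y => by rw [hγ.dist_eq]; rfl
  have d1 : ∀ x y, dist (f y) (f x) ≤ a * |y - x| := fun x y => by
    rw [hγ.dist_eq]
    simpa [Real.dist_eq, abs_of_pos ha, ← mul_sub, abs_mul] using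
      (LipschitzWith.projIcc ha.le).dist_le_mul (a * y) (a * x)
  have d2 : ∀ x y, dist (f y) (f x) ≤ a := fun x y => by
    rw [hγ.dist_eq, Subtype.dist_eq]; simpa using Real.dist_le_of_mem_Icc (projIcc 0 a ha.le (a * y)).2
      (projIcc 0 a ha.le (a * x)).2
  have l0 : ∀ x < (0 : ℝ), max 0 (min a (a * x)) = 0 := fun x hx =>
    max_eq_left (min_le_of_right_le (by nlinarith))
  have l1 : ∀ x > (1 : ℝ), max 0 (min a (a * x)) = a := fun x hx => by
    rw [min_eq_left (by nlinarith), max_eq_right ha.le]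
  have hK := T_fin (half_pos h0)
  obtain ⟨n, hn⟩ := exists_nat_gt (16 * (∫⁻ z in T (η / 2), k z).toReal)
  have hI := S_fin (2 ^ n)
  have h3 := ENNReal.toReal_mono hI (S_big n)
  rw [ENNReal.toReal_ofReal (by positivity)] at h3
  refine ⟨Ioo (-2 ^ n) (2 ^ n), f, η * (a / 2), a / 2, convex_Ioo _ _,
    (hγ.continuous.comp (continuous_projIcc.comp (by fun_prop))).measurable, by positivity,
    by nlinarith, ?_⟩
  have hq : (1 : ℝ) ≤ 2 ^ n := one_le_pow₀ one_le_two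
  have mk : Measurable k := by unfold k; fun_prop
  have u : G p (η * (a / 2)) f (Ioo (-2 ^ n) (2 ^ n)) ≤ ENNReal.ofReal (a ^ p) *
      (((∫⁻ z in S (2 ^ n), k z) + ∫⁻ z in S (2 ^ n), k z) +
        ((∫⁻ z in T (η / 2), k z) + ∫⁻ z in T (η / 2), k z)) := by
    refine le_trans (setLIntegral_mono (g := fun z => ENNReal.ofReal (a ^ p) * k z) (by fun_prop)
      fun z hz => ?_) ?_
    · rw [k, ← ENNReal.ofReal_mul (by positivity), mul_one_div]
      refine ENNReal.ofReal_le_ofReal ?_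
      have := sub_nonneg.2 (show η * (a / 2) ≤ dist (f z.2) (f z.1) from hz.2)
      gcongr
      linarith [d2 z.1 z.2, show 0 < η * (a / 2) by positivity]
    · rw [lintegral_const_mul _ mk]
      gcongr
      refine le_trans (lintegral_mono_set (t := (S (2 ^ n) ∪ Prod.swap ⁻¹' S (2 ^ n)) ∪
        (T (η / 2) ∪ Prod.swap ⁻¹' T (η / 2))) ?_) ((lintegral_union_le _ _ _).trans (add_le_add
          ((lintegral_union_le _ _ _).trans (by rw [sw])) ((lintegral_union_le _ _ _).trans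
            (by rw [sw]))))
      rintro ⟨x, y⟩ ⟨⟨hx, hy⟩, h⟩
      replace h : η * (a / 2) ≤ dist (f y) (f x) := h
      have h4 : η / 2 ≤ |y - x| := by nlinarith [d1 x y]
      have h5 : 0 < η * (a / 2) := by positivity
      by_cases h6 : x ∈ Icc (0 : ℝ) 1
      · exact Or.inr (Or.inl ⟨h6, h4⟩)
      by_cases h7 : y ∈ Icc (0 : ℝ) 1
      · exact Or.inr (Or.inr ⟨h7, by rwa [abs_sub_comm]⟩)
      simp only [mem_Icc, not_and_or, not_le] at h6 h7
      rw [hd] at h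
      rcases h6 with h6 | h6 <;> rcases h7 with h7 | h7
      · rw [l0 x h6, l0 y h7, sub_self, abs_zero] at h; linarith
      · exact Or.inl (Or.inl ⟨⟨hx.1, h6⟩, h7, hy.2⟩)
      · exact Or.inl (Or.inr ⟨⟨hy.1, h7⟩, h6, hx.2⟩)
      · rw [l1 x h6, l1 y h7, sub_self, abs_zero] at h; linarith
  have v : ENNReal.ofReal (a ^ p / 2) * ∫⁻ z in S (2 ^ n), k z ≤
      G p (a / 2) f (Ioo (-2 ^ n) (2 ^ n)) := by
    have e : ∀ z ∈ S (2 ^ n), dist (f z.2) (f z.1) = a := fun z hz => by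
      rw [hd, l0 _ hz.1.2, l1 _ hz.2.1, sub_zero, abs_of_pos ha]
    rw [← lintegral_const_mul _ mk]
    refine le_trans (setLIntegral_mono' (measurableSet_Ioo.prod measurableSet_Ioo) fun z hz => ?_)
      (lintegral_mono_set (show S (2 ^ n) ⊆ _ from fun z hz => ⟨⟨⟨hz.1.1, by linarith [hz.1.2]⟩,
        by linarith [hz.2.1], hz.2.2⟩, by rw [mem_ofPred_eq, e z hz]; linarith⟩))
    rw [k, ← ENNReal.ofReal_mul (by positivity), mul_one_div, e z hz, sub_half,
      div_rpow ha.le two_pos.le]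
    refine ENNReal.ofReal_le_ofReal ?_
    gcongr
    simpa using rpow_le_rpow_of_exponent_le one_le_two p1.le
  refine lt_of_le_of_lt (mul_le_mul' (ENNReal.ofReal_le_ofReal (q := 1 / 8)
    (by rwa [mul_div_cancel_right₀ _ (by positivity)])) u) (lt_of_lt_of_le ?_ v)
  have hp : 0 < a ^ p := by positivity
  rw [← ENNReal.ofReal_toReal hI, ← ENNReal.ofReal_toReal hK]
  have := ENNReal.toReal_nonneg (a := ∫⁻ z in T (η / 2), k z)
  generalize (∫⁻ z in T (η / 2), k z).toReal = K at *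
  generalize (∫⁻ z in S (2 ^ n), k z).toReal = I at *
  have hI0 : 0 < I := by linarith
  rw [← ENNReal.ofReal_add hI0.le hI0.le, ← ENNReal.ofReal_add this this,
    ← ENNReal.ofReal_add (by positivity) (by positivity), ← ENNReal.ofReal_mul hp.le,
    ← ENNReal.ofReal_mul (by positivity), ← ENNReal.ofReal_mul (by positivity),
    ENNReal.ofReal_lt_ofReal_iff (by positivity)]
  nlinarith

theorem circ : Isometry fun x : Icc (0 : ℝ) π => ((x : ℝ) : AddCircle (2 * π)) := by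
  refine Isometry.of_dist_eq fun x y => ?_
  rw [dist_eq_norm, ← AddCircle.coe_sub, Subtype.dist_eq, Real.dist_eq,
    AddCircle.norm_coe_eq_abs_iff _ (by positivity), abs_of_pos (a := 2 * π) (by positivity), abs_le]
  constructor <;> linarith [x.2.1, x.2.2, y.2.1, y.2.2]

end Pool.Agent.H.MP_a53ef7_an
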